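import Mathlib
import Pool.Agent.H628R4.TP.LocRel

/-!
# The local strong monodromy conjecture for products of universal sparse polynomials

Let `v k j ∈ ℕ ^ N` for `k < K`, `j < r` (repetitions allowed) and
`f = ∏_k (∑_j y_{k,j} x ^ (v k j))`, a germ at the origin in the variables `x_1, …, x_N` and
`y_{k,j}`. Then `b(s) Z(s)` is a polynomial in `s`, where `b` is the local Bernstein-Sato
polynomial of `f` at the origin and `Z` is the local topological zeta function of `f` at the
origin; in particular every pole of `Z` is a root of `b`, of at least the same order.
-/

set_option autoImplicit false

namespace Pool.Agent.Results.MP_6163c8_ag.SparseProductsLocal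

open Polynomial Pool.Agent.H628R4.TZ Pool.Agent.H628R4.TP

/-- **The local strong monodromy conjecture, with multiplicities, for the germs at the origin of
the polynomials `f = ∏_k (∑_j y_{k,j} x ^ (v k j))`.**

`IsLocalBFunction (prodPoly v) b` says that `b(s) f ^ s = P(s) f ^ (s + 1)` for a differential
operator `P(s)` with formal power series coefficients at the origin; the local Bernstein-Sato
polynomial of `f` is one of these polynomials `b`. `R` is any toric variety (given by the maximal
cones of its fan) on which the ideals `(x ^ (v k j))_j` become principal, and `topZetaProd R` is
the local topological zeta function of `f` at the origin, computed on the embedded resolution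
`X_R × ℂ ^ (K r)`. (The fibre over the origin is the product of the fibre of `X_R` over the origin
of `ℂ ^ N` and the origin of `ℂ ^ (K r)`; it lies in all the `K` strict transforms. The torus
orbits have Euler characteristic `0`, except the fixed points, which lie over the origin. So the
local and the global topological zeta functions of `f` are equal.) -/
theorem result {K r N : ℕ} [NeZero r] (v : Fin K → Fin r → Fin N → ℕ)
    (R : ToricResolution (prodExp v)) (b : ℂ[X]) (hb : IsLocalBFunction (prodPoly v) b) :
    ∃ P : ℂ[X], algebraMap ℂ[X] (RatFunc ℂ) b * topZetaProd R = algebraMap ℂ[X] (RatFunc ℂ) P := by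
  have : Nonempty (Fin K → Fin r) := ⟨fun _ => 0⟩
  exact main_prod_of v R b (num_rel_loc v b hb)

end Pool.Agent.Results.MP_6163c8_ag.SparseProductsLocal
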